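import Pool.Agent.H96.KX.Targets

/-!
# MP_c62aed_lc: the number of heavy partial assignments, weighted (HVY)
-/

namespace Pool.Agent.H91.KX

open Finset Pool.Agent.H96.KX

/-- the weighted number of all partial assignments -/
theorem hvy_sum (Z : Type) [Fintype Z] [Nonempty Z] (N : ℕ) :
    ∑ τ : Fin N → Option Z, (1 / (Fintype.card Z : ℝ)) ^ psz τ = 2 ^ N := by
  classical
  have hQ : (Fintype.card Z : ℝ) ≠ 0 := by
    exact_mod_cast Fintype.card_ne_zero
  have h1 : ∀ τ : Fin N → Option Z, (1 / (Fintype.card Z : ℝ)) ^ psz τ =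
      ∏ i, (if τ i = none then (1 : ℝ) else 1 / (Fintype.card Z : ℝ)) := by
    intro τ
    rw [Finset.prod_ite, Finset.prod_const_one, one_mul, Finset.prod_const]
    rfl
  rw [Finset.sum_congr rfl fun τ _ => h1 τ]
  have h2 := Finset.prod_univ_sum (fun _ : Fin N => (Finset.univ : Finset (Option Z)))
    (fun _ o => if o = none then (1 : ℝ) else 1 / (Fintype.card Z : ℝ))
  rw [Fintype.piFinset_univ] at h2
  rw [← h2]
  have h3 : ∑ o : Option Z, (if o = none then (1 : ℝ) else 1 / (Fintype.card Z : ℝ)) = 2 := by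
    rw [Fintype.sum_option, if_pos rfl]
    have h4 : ∀ z : Z, (if (some z : Option Z) = none then (1 : ℝ)
        else 1 / (Fintype.card Z : ℝ)) = 1 / (Fintype.card Z : ℝ) := by
      intro z
      rw [if_neg (Option.some_ne_none z)]
    rw [Finset.sum_congr rfl fun z _ => h4 z, Finset.sum_const, Finset.card_univ, nsmul_eq_mul,
      mul_one_div_cancel hQ]
    norm_num
  rw [h3, Finset.prod_const, Finset.card_univ, Fintype.card_fin]

theorem pf_HVY : S_HVY := by
  intro Z _ _ N t s w hs hw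
  have hQ0 : (0 : ℝ) < Fintype.card Z := by exact_mod_cast Fintype.card_pos
  have hs0 : 0 < s := hQ0.trans_le hs
  have hr0 : 0 ≤ (Fintype.card Z : ℝ) / s := by positivity
  have hr1 : (Fintype.card Z : ℝ) / s ≤ 1 := (div_le_one hs0).mpr hs
  have h1 := Finset.sum_sq_le_sum_mul_sum_of_sq_le_mul
    (univ.filter fun τ : Fin N → Option Z => t ≤ psz τ)
    (r := w) (f := fun τ => (1 / s) ^ psz τ) (g := fun τ => s ^ psz τ * w τ ^ 2)
    (fun τ _ => by positivity) (fun τ _ => by positivity) (fun τ _ => le_of_eq <| by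
      have h2 : (1 / s) ^ psz τ * s ^ psz τ = 1 := by
        rw [← mul_pow, one_div_mul_cancel hs0.ne', one_pow]
      calc w τ ^ 2 = 1 * w τ ^ 2 := (one_mul _).symm
        _ = (1 / s) ^ psz τ * s ^ psz τ * w τ ^ 2 := by rw [h2]
        _ = _ := by ring)
  have h3 : ∑ τ : Fin N → Option Z with t ≤ psz τ, (1 / s) ^ psz τ ≤
      2 ^ N * ((Fintype.card Z : ℝ) / s) ^ t := by
    have h4 : ∀ τ ∈ univ.filter (fun τ : Fin N → Option Z => t ≤ psz τ), (1 / s) ^ psz τ ≤
        ((Fintype.card Z : ℝ) / s) ^ t * (1 / (Fintype.card Z : ℝ)) ^ psz τ := by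
      intro τ hτ
      have h5 : t ≤ psz τ := (Finset.mem_filter.mp hτ).2
      have h6 : (1 / s) ^ psz τ =
          ((Fintype.card Z : ℝ) / s) ^ psz τ * (1 / (Fintype.card Z : ℝ)) ^ psz τ := by
        rw [← mul_pow]
        congr 1
        field_simp
      rw [h6]
      exact mul_le_mul_of_nonneg_right (pow_le_pow_of_le_one hr0 hr1 h5) (by positivity)
    calc ∑ τ : Fin N → Option Z with t ≤ psz τ, (1 / s) ^ psz τ
        ≤ ∑ τ : Fin N → Option Z with t ≤ psz τ,
          ((Fintype.card Z : ℝ) / s) ^ t * (1 / (Fintype.card Z : ℝ)) ^ psz τ :=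
          Finset.sum_le_sum h4
      _ ≤ ∑ τ : Fin N → Option Z,
          ((Fintype.card Z : ℝ) / s) ^ t * (1 / (Fintype.card Z : ℝ)) ^ psz τ :=
          Finset.sum_le_sum_of_subset_of_nonneg (Finset.filter_subset _ _)
            fun τ _ _ => by positivity
      _ = 2 ^ N * ((Fintype.card Z : ℝ) / s) ^ t := by
          rw [← Finset.mul_sum, hvy_sum]
          ring
  have h7 : ∑ τ : Fin N → Option Z with t ≤ psz τ, s ^ psz τ * w τ ^ 2 ≤
      ∑ τ : Fin N → Option Z, s ^ psz τ * w τ ^ 2 :=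
    Finset.sum_le_sum_of_subset_of_nonneg (Finset.filter_subset _ _)
      fun τ _ _ => by positivity
  refine h1.trans (mul_le_mul h3 h7 ?_ ?_)
  · exact Finset.sum_nonneg fun τ _ => by positivity
  · positivity

end Pool.Agent.H91.KX
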